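import Pool.Agent.H88.LX.Ord
import Pool.Agent.H13.CA.Grp
import Pool.Agent.H6.LZ.Laz

/-!
# Symmetric cocycles of a formal group law with trivial coefficients
-/

set_option autoImplicit false

namespace Pool.Agent.H88.LX

open MvPowerSeries
open Pool.Agent.H13.CA

variable {R : Type*} [CommRing R] {σ τ : Type*}

/-- the coboundary `e (Γ (x, y)) - e (x) - e (y)` -/
noncomputable def Dl (Γ : FormalGroup R) (e : PowerSeries R) : MvPowerSeries (Fin 2) R :=
  PowerSeries.subst Γ.toPowerSeries e - PowerSeries.subst (X 0 : MvPowerSeries (Fin 2) R) e -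
    PowerSeries.subst (X 1 : MvPowerSeries (Fin 2) R) e

/-- symmetric cocycles -/
structure IsCoc (Γ : FormalGroup R) (D : MvPowerSeries (Fin 2) R) : Prop where
  left : D.subst ![(X 0 : MvPowerSeries (Fin 2) R), 0] = 0
  symm : D.subst ![(X 1 : MvPowerSeries (Fin 2) R), X 0] = D
  coc : D.subst ![(X 0 : MvPowerSeries (Fin 3) R), X 1] +
      D.subst ![Γ.toPowerSeries.subst ![(X 0 : MvPowerSeries (Fin 3) R), X 1], X 2] =
    D.subst ![(X 0 : MvPowerSeries (Fin 3) R), Γ.toPowerSeries.subst ![(X 1 : MvPowerSeries (Fin 3) R), X 2]] +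
      D.subst ![(X 1 : MvPowerSeries (Fin 3) R), X 2]

theorem hs_pair {a b : MvPowerSeries σ R} (ha : constantCoeff a = 0) (hb : constantCoeff b = 0) : HasSubst ![a, b] :=
  hasSubst_of_constantCoeff_zero fun i => by
    fin_cases i
    · exact ha
    · exact hb

theorem hs1 {a : MvPowerSeries σ R} (ha : constantCoeff a = 0) : PowerSeries.HasSubst a :=
  PowerSeries.HasSubst.of_constantCoeff_zero ha

theorem Dl_subst (Γ : FormalGroup R) (e : PowerSeries R) {a b : MvPowerSeries σ R} (ha : constantCoeff a = 0)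
    (hb : constantCoeff b = 0) : (Dl Γ e).subst ![a, b] =
      PowerSeries.subst (Γ.toPowerSeries.subst ![a, b]) e - PowerSeries.subst a e - PowerSeries.subst b e := by
  have hs := hs_pair ha hb
  rw [Dl, ← coe_substAlgHom hs, map_sub, map_sub, coe_substAlgHom, mv_subst_subst (hs_F Γ) hs,
    mv_subst_subst (PowerSeries.HasSubst.X 0) hs, mv_subst_subst (PowerSeries.HasSubst.X 1) hs, subst_X hs, subst_X hs]
  rfl

theorem Dl_add (Γ : FormalGroup R) (e e' : PowerSeries R) : Dl Γ (e + e') = Dl Γ e + Dl Γ e' := by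
  rw [Dl, Dl, Dl, PowerSeries.subst_add (hs_F Γ), PowerSeries.subst_add (PowerSeries.HasSubst.X 0),
    PowerSeries.subst_add (PowerSeries.HasSubst.X 1)]
  ring

theorem Dl_sub (Γ : FormalGroup R) (e e' : PowerSeries R) : Dl Γ (e - e') = Dl Γ e - Dl Γ e' := by
  rw [Dl, Dl, Dl, PowerSeries.subst_sub (hs_F Γ), PowerSeries.subst_sub (PowerSeries.HasSubst.X 0),
    PowerSeries.subst_sub (PowerSeries.HasSubst.X 1)]
  ring

theorem Dl_smul (Γ : FormalGroup R) (c : R) (e : PowerSeries R) : Dl Γ (c • e) = c • Dl Γ e := by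
  rw [Dl, Dl, PowerSeries.subst_smul (hs_F Γ), PowerSeries.subst_smul (PowerSeries.HasSubst.X 0),
    PowerSeries.subst_smul (PowerSeries.HasSubst.X 1), smul_sub, smul_sub]

theorem Dl_zero (Γ : FormalGroup R) : Dl Γ 0 = 0 := by
  have := Dl_sub Γ 0 0
  rwa [sub_zero, sub_self] at this

theorem isCoc_Dl {Γ : FormalGroup R} (hΓ : Γ.IsComm) {e : PowerSeries R} (he : PowerSeries.constantCoeff e = 0) :
    IsCoc Γ (Dl Γ e) where
  left := by
    rw [Dl_subst Γ e (constantCoeff_X 0) (map_zero _), FormalGroup.add_zero Γ (hs1 (constantCoeff_X 0)), sub_self,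
      zero_sub, PowerSeries.subst_zero_of_constantCoeff_zero he, neg_zero]
  symm := by
    have h1 := hΓ.comm
    rw [Dl_subst Γ e (constantCoeff_X 1) (constantCoeff_X 0), Dl]
    have h2 : Γ.toPowerSeries.subst ![(X 1 : MvPowerSeries (Fin 2) R), X 0] = Γ.toPowerSeries := h1.symm
    rw [h2]
    ring
  coc := by
    have h0 : ∀ i j : Fin 3, constantCoeff (Γ.toPowerSeries.subst ![(X i : MvPowerSeries (Fin 3) R), X j]) = 0 :=
      fun i j => cc_F_subst Γ (constantCoeff_X i) (constantCoeff_X j)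
    rw [Dl_subst Γ e (constantCoeff_X 0) (constantCoeff_X 1), Dl_subst Γ e (h0 0 1) (constantCoeff_X 2),
      Dl_subst Γ e (constantCoeff_X 0) (h0 1 2), Dl_subst Γ e (constantCoeff_X 1) (constantCoeff_X 2)]
    have h1 := Γ.assoc
    rw [h1]
    ring

theorem IsCoc.sub {Γ : FormalGroup R} {D D' : MvPowerSeries (Fin 2) R} (h : IsCoc Γ D) (h' : IsCoc Γ D') :
    IsCoc Γ (D - D') := by
  have h0 : ∀ i j : Fin 3, constantCoeff (Γ.toPowerSeries.subst ![(X i : MvPowerSeries (Fin 3) R), X j]) = 0 :=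
    fun i j => cc_F_subst Γ (constantCoeff_X i) (constantCoeff_X j)
  have key : ∀ {ρ : Type} {a b : MvPowerSeries ρ R}, constantCoeff a = 0 → constantCoeff b = 0 →
      (D - D').subst ![a, b] = D.subst ![a, b] - D'.subst ![a, b] := by
    intro ρ a b ha hb
    exact subst_sub (hs_pair ha hb) D D'
  refine ⟨?_, ?_, ?_⟩
  · rw [key (constantCoeff_X 0) (map_zero _), h.left, h'.left, sub_zero]
  · rw [key (constantCoeff_X 1) (constantCoeff_X 0), h.symm, h'.symm]
  · rw [key (constantCoeff_X 0) (constantCoeff_X 1), key (h0 0 1) (constantCoeff_X 2),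
      key (constantCoeff_X 0) (h0 1 2), key (constantCoeff_X 1) (constantCoeff_X 2)]
    linear_combination h.coc - h'.coc

theorem IsCoc.smul {Γ : FormalGroup R} {D : MvPowerSeries (Fin 2) R} (h : IsCoc Γ D) (c : R) : IsCoc Γ (c • D) := by
  have h0 : ∀ i j : Fin 3, constantCoeff (Γ.toPowerSeries.subst ![(X i : MvPowerSeries (Fin 3) R), X j]) = 0 :=
    fun i j => cc_F_subst Γ (constantCoeff_X i) (constantCoeff_X j)
  have key : ∀ {ρ : Type} {a b : MvPowerSeries ρ R}, constantCoeff a = 0 → constantCoeff b = 0 →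
      (c • D).subst ![a, b] = c • D.subst ![a, b] := by
    intro ρ a b ha hb
    exact subst_smul (hs_pair ha hb) c D
  refine ⟨?_, ?_, ?_⟩
  · rw [key (constantCoeff_X 0) (map_zero _), h.left, smul_zero]
  · rw [key (constantCoeff_X 1) (constantCoeff_X 0), h.symm]
  · rw [key (constantCoeff_X 0) (constantCoeff_X 1), key (h0 0 1) (constantCoeff_X 2),
      key (constantCoeff_X 0) (h0 1 2), key (constantCoeff_X 1) (constantCoeff_X 2), ← smul_add, ← smul_add, h.coc]

theorem coeff_subst_pair (D : MvPowerSeries (Fin 2) R) {a b : MvPowerSeries σ R} (ha : constantCoeff a = 0)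
    (hb : constantCoeff b = 0) (e : σ →₀ ℕ) :
    coeff e (D.subst ![a, b]) = finsum fun d : Fin 2 →₀ ℕ => coeff d D • coeff e (a ^ d 0 * b ^ d 1) := by
  rw [coeff_subst (hs_pair ha hb)]
  refine finsum_congr fun d => ?_
  rw [Finsupp.prod_fintype _ _ (fun i => pow_zero _), Fin.prod_univ_two]
  rfl

theorem IsCoc.coeff_left {Γ : FormalGroup R} {D : MvPowerSeries (Fin 2) R} (h : IsCoc Γ D) (i : ℕ) :
    coeff (ex i 0) D = 0 := by
  classical
  have h1 : coeff (ex i 0) (D.subst ![(X 0 : MvPowerSeries (Fin 2) R), 0]) = coeff (ex i 0) D := by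
    rw [coeff_subst_pair D (constantCoeff_X 0) (map_zero _), finsum_eq_single _ (ex i 0)]
    · rw [ex_zero, ex_one, pow_zero, mul_one, X_pow_eq, coeff_monomial, if_pos, smul_eq_mul, mul_one]
      rw [ex, Finsupp.single_zero, add_zero]
    · intro d hd
      by_cases h2 : d 1 = 0
      · rw [h2, pow_zero, mul_one, X_pow_eq, coeff_monomial, if_neg, smul_zero]
        intro h3
        apply hd
        rw [ex_eq d, h2, ex_inj]
        refine ⟨?_, rfl⟩
        have := congrArg (fun f : Fin 2 →₀ ℕ => f 0) h3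
        simpa [ex] using this.symm
      · rw [zero_pow h2, mul_zero, map_zero, smul_zero]
  rw [← h1, h.left, map_zero]

theorem IsCoc.coeff_symm {Γ : FormalGroup R} {D : MvPowerSeries (Fin 2) R} (h : IsCoc Γ D) (i j : ℕ) :
    coeff (ex i j) D = coeff (ex j i) D := by
  classical
  have h1 : coeff (ex i j) (D.subst ![(X 1 : MvPowerSeries (Fin 2) R), X 0]) = coeff (ex j i) D := by
    rw [coeff_subst_pair D (constantCoeff_X 1) (constantCoeff_X 0), finsum_eq_single _ (ex j i)]
    · rw [ex_zero, ex_one, mul_comm, mon_ex, coeff_monomial, if_pos rfl, smul_eq_mul, mul_one]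
    · intro d hd
      rw [mul_comm, mon_ex, coeff_monomial, if_neg, smul_zero]
      rw [ex_inj]
      rintro ⟨h2, h3⟩
      exact hd (by rw [ex_eq d, ex_inj]; exact ⟨h3.symm, h2.symm⟩)
  rw [← h1, h.symm]

theorem IsCoc.coeff_right {Γ : FormalGroup R} {D : MvPowerSeries (Fin 2) R} (h : IsCoc Γ D) (i : ℕ) :
    coeff (ex 0 i) D = 0 := by rw [h.coeff_symm, h.coeff_left]

/-- a cocycle has no terms of degree `≤ 1` -/
theorem IsCoc.od_two {Γ : FormalGroup R} {D : MvPowerSeries (Fin 2) R} (h : IsCoc Γ D) : Od 2 D := by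
  intro e he
  rw [ex_eq e] at he ⊢
  rw [degree_ex] at he
  by_cases h0 : e 1 = 0
  · rw [h0, h.coeff_left]
  · rw [show e 0 = 0 by omega, h.coeff_right]

end Pool.Agent.H88.LX
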