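import Pool.Agent.H88.LX.Coc

/-!
# The leading form of a symmetric cocycle (Lazard)
-/

set_option autoImplicit false

namespace Pool.Agent.H88.LX

open MvPowerSeries
open Pool.Agent.H13.CA

variable {R : Type*} [CommRing R] {σ τ : Type*}

/-- the exponent of `x ^ i y ^ j z ^ l` -/
noncomputable def e3 (i j l : ℕ) : Fin 3 →₀ ℕ := Finsupp.single 0 i + Finsupp.single 1 j + Finsupp.single 2 l

theorem e3_0 (i j l : ℕ) : e3 i j l 0 = i := by simp [e3]
theorem e3_1 (i j l : ℕ) : e3 i j l 1 = j := by simp [e3]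
theorem e3_2 (i j l : ℕ) : e3 i j l 2 = l := by simp [e3]

theorem e3_inj {i j l i' j' l' : ℕ} : e3 i j l = e3 i' j' l' ↔ i = i' ∧ j = j' ∧ l = l' := by
  constructor
  · intro h
    exact ⟨by rw [← e3_0 i j l, h, e3_0], by rw [← e3_1 i j l, h, e3_1], by rw [← e3_2 i j l, h, e3_2]⟩
  · rintro ⟨rfl, rfl, rfl⟩
    rfl

theorem degree_e3 (i j l : ℕ) : (e3 i j l).degree = i + j + l := by
  rw [Finsupp.degree_eq_sum, Fin.sum_univ_three, e3_0, e3_1, e3_2]

theorem mon_e3 (i j l : ℕ) : (X 0 : MvPowerSeries (Fin 3) R) ^ i * X 1 ^ j * X 2 ^ l = monomial (e3 i j l) 1 := by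
  rw [X_pow_eq, X_pow_eq, X_pow_eq, monomial_mul_monomial, monomial_mul_monomial, one_mul, one_mul, e3]

theorem coeff_mon (i j l i' j' l' : ℕ) : coeff (e3 i j l) ((X 0 : MvPowerSeries (Fin 3) R) ^ i' * X 1 ^ j' * X 2 ^ l') =
    if i = i' ∧ j = j' ∧ l = l' then 1 else 0 := by
  classical
  rw [mon_e3, coeff_monomial]
  simp only [e3_inj]

theorem c1 (i j l m n : ℕ) : coeff (e3 i j l) (((X 0 : MvPowerSeries (Fin 3) R) + X 1) ^ m * X 2 ^ n) =
    if m = i + j ∧ n = l then ((m.choose i : ℕ) : R) else 0 := by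
  rw [add_pow, Finset.sum_mul, map_sum]
  have h1 : ∀ t ∈ Finset.range (m + 1), coeff (e3 i j l) ((X 0 : MvPowerSeries (Fin 3) R) ^ t * X 1 ^ (m - t) *
      (m.choose t : MvPowerSeries (Fin 3) R) * X 2 ^ n) =
      if t = i then (if m = i + j ∧ n = l then ((m.choose i : ℕ) : R) else 0) else 0 := by
    intro t ht
    rw [Finset.mem_range] at ht
    rw [show (X 0 : MvPowerSeries (Fin 3) R) ^ t * X 1 ^ (m - t) * (m.choose t : MvPowerSeries (Fin 3) R) * X 2 ^ n =
      m.choose t • (X 0 ^ t * X 1 ^ (m - t) * X 2 ^ n) by rw [nsmul_eq_mul]; ring, map_nsmul, coeff_mon]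
    by_cases h2 : t = i
    · subst h2
      rw [if_pos rfl]
      by_cases h3 : m = t + j ∧ n = l
      · rw [if_pos h3, if_pos ⟨rfl, by omega, h3.2.symm⟩, nsmul_eq_mul, mul_one]
      · rw [if_neg h3, if_neg (by omega), smul_zero]
    · rw [if_neg h2, if_neg (by omega), smul_zero]
  rw [Finset.sum_congr rfl h1, Finset.sum_ite_eq' (Finset.range (m + 1)) i]
  by_cases h3 : m = i + j ∧ n = l
  · rw [if_pos (by rw [Finset.mem_range]; omega), if_pos h3]
  · rw [if_neg h3]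
    split_ifs <;> rfl

theorem c2 (i j l m n : ℕ) : coeff (e3 i j l) ((X 0 : MvPowerSeries (Fin 3) R) ^ m * (X 1 + X 2) ^ n) =
    if m = i ∧ n = j + l then ((n.choose j : ℕ) : R) else 0 := by
  rw [add_pow, Finset.mul_sum, map_sum]
  have h1 : ∀ t ∈ Finset.range (n + 1), coeff (e3 i j l) ((X 0 : MvPowerSeries (Fin 3) R) ^ m * (X 1 ^ t * X 2 ^ (n - t) *
      (n.choose t : MvPowerSeries (Fin 3) R))) =
      if t = j then (if m = i ∧ n = j + l then ((n.choose j : ℕ) : R) else 0) else 0 := by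
    intro t ht
    rw [Finset.mem_range] at ht
    rw [show (X 0 : MvPowerSeries (Fin 3) R) ^ m * (X 1 ^ t * X 2 ^ (n - t) * (n.choose t : MvPowerSeries (Fin 3) R)) =
      n.choose t • (X 0 ^ m * X 1 ^ t * X 2 ^ (n - t)) by rw [nsmul_eq_mul]; ring, map_nsmul, coeff_mon]
    by_cases h2 : t = j
    · subst h2
      rw [if_pos rfl]
      by_cases h3 : m = i ∧ n = t + l
      · rw [if_pos h3, if_pos ⟨h3.1.symm, rfl, by omega⟩, nsmul_eq_mul, mul_one]
      · rw [if_neg h3, if_neg (by omega), smul_zero]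
    · rw [if_neg h2, if_neg (by omega), smul_zero]
  rw [Finset.sum_congr rfl h1, Finset.sum_ite_eq' (Finset.range (n + 1)) j]
  by_cases h3 : m = i ∧ n = j + l
  · rw [if_pos (by rw [Finset.mem_range]; omega), if_pos h3]
  · rw [if_neg h3]
    split_ifs <;> rfl

theorem od_Γ (Γ : FormalGroup R) : Od 2 (Γ.toPowerSeries - (X 0 + X 1)) := by
  classical
  intro e he
  rw [ex_eq e] at he ⊢
  rw [degree_ex] at he
  have h0 : coeff (ex 0 0) Γ.toPowerSeries = 0 := by
    have : ex 0 0 = 0 := by simp [ex]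
    rw [this, coeff_zero_eq_constantCoeff_apply, Γ.zero_constantCoeff]
  have h1 : coeff (ex 1 0) Γ.toPowerSeries = 1 := by
    have : ex 1 0 = Finsupp.single 0 1 := by simp [ex]
    rw [this, Γ.lin_coeff_X]
  have h2 : coeff (ex 0 1) Γ.toPowerSeries = 1 := by
    have : ex 0 1 = Finsupp.single 1 1 := by simp [ex]
    rw [this, Γ.lin_coeff_Y]
  have h3 : ∀ i j, coeff (ex i j) ((X 0 : MvPowerSeries (Fin 2) R) + X 1) =
      (if i = 1 ∧ j = 0 then 1 else 0) + (if i = 0 ∧ j = 1 then 1 else 0) := by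
    intro i j
    have h4 : (X 0 : MvPowerSeries (Fin 2) R) = X 0 ^ 1 * X 1 ^ 0 := by rw [pow_one, pow_zero, mul_one]
    have h5 : (X 1 : MvPowerSeries (Fin 2) R) = X 0 ^ 0 * X 1 ^ 1 := by rw [pow_one, pow_zero, one_mul]
    rw [map_add, h4, mon_ex, h5, mon_ex, coeff_monomial, coeff_monomial]
    simp only [ex_inj]
  rw [map_sub, h3]
  have : (e 0 = 0 ∧ e 1 = 0) ∨ (e 0 = 1 ∧ e 1 = 0) ∨ (e 0 = 0 ∧ e 1 = 1) := by omega
  rcases this with ⟨ha, hb⟩ | ⟨ha, hb⟩ | ⟨ha, hb⟩ <;> rw [ha, hb] <;> simp [h0, h1, h2]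

theorem od_Γ_subst (Γ : FormalGroup R) {a b : MvPowerSeries σ R} (ha : constantCoeff a = 0)
    (hb : constantCoeff b = 0) : Od 2 (Γ.toPowerSeries.subst ![a, b] - (a + b)) := by
  have hs := hs_pair ha hb
  have h1 := (od_Γ Γ).subst (a := ![a, b]) fun i => by
    fin_cases i
    · exact ha
    · exact hb
  rw [← coe_substAlgHom hs, map_sub, map_add, coe_substAlgHom, subst_X hs, subst_X hs] at h1
  exact h1

theorem IsCoc.rel {Γ : FormalGroup R} {D : MvPowerSeries (Fin 2) R} (h : IsCoc Γ D) {d : ℕ} (hd : Od d D)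
    {i j l : ℕ} (hi : 0 < i) (hl : 0 < l) (hs : i + j + l = d) :
    ((i + j).choose i : R) * coeff (ex (i + j) l) D = ((j + l).choose j : R) * coeff (ex i (j + l)) D := by
  have h0 : ∀ i j : Fin 3, constantCoeff (Γ.toPowerSeries.subst ![(X i : MvPowerSeries (Fin 3) R), X j]) = 0 :=
    fun i j => cc_F_subst Γ (constantCoeff_X i) (constantCoeff_X j)
  have hX : ∀ i : Fin 3, Od 1 (X i : MvPowerSeries (Fin 3) R) := fun i => od_X i
  have hX2 : ∀ i : Fin 3, Od 2 ((X i : MvPowerSeries (Fin 3) R) - X i) := fun i => by rw [sub_self]; exact od_zero _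
  have he : (e3 i j l).degree = d := by rw [degree_e3, hs]
  have h1 := congrArg (coeff (e3 i j l)) h.coc
  rw [map_add, map_add, coeff_subst_lead hd (hX 0) (hX 0) (hX2 0) (hX 1) (hX 1) (hX2 1) _ he,
    coeff_subst_lead hd (od_one_iff.mpr (h0 0 1)) ((hX 0).add (hX 1)) (od_Γ_subst Γ (constantCoeff_X 0) (constantCoeff_X 1))
      (hX 2) (hX 2) (hX2 2) _ he,
    coeff_subst_lead hd (hX 0) (hX 0) (hX2 0) (od_one_iff.mpr (h0 1 2)) ((hX 1).add (hX 2))
      (od_Γ_subst Γ (constantCoeff_X 1) (constantCoeff_X 2)) _ he,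
    coeff_subst_lead hd (hX 1) (hX 1) (hX2 1) (hX 2) (hX 2) (hX2 2) _ he] at h1
  simp only [lf, map_sum, LinearMap.map_smul, smul_eq_mul] at h1
  have z1 : ∀ m ∈ Finset.range (d + 1), coeff (ex m (d - m)) D * coeff (e3 i j l) ((X 0 : MvPowerSeries (Fin 3) R) ^ m *
      X 1 ^ (d - m)) = 0 := by
    intro m _
    have : (X 0 : MvPowerSeries (Fin 3) R) ^ m * X 1 ^ (d - m) = X 0 ^ m * X 1 ^ (d - m) * X 2 ^ 0 := by
      rw [pow_zero, mul_one]
    rw [this, coeff_mon, if_neg (by omega), mul_zero]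
  have z4 : ∀ m ∈ Finset.range (d + 1), coeff (ex m (d - m)) D * coeff (e3 i j l) ((X 1 : MvPowerSeries (Fin 3) R) ^ m *
      X 2 ^ (d - m)) = 0 := by
    intro m _
    have : (X 1 : MvPowerSeries (Fin 3) R) ^ m * X 2 ^ (d - m) = X 0 ^ 0 * X 1 ^ m * X 2 ^ (d - m) := by
      rw [pow_zero, one_mul]
    rw [this, coeff_mon, if_neg (by omega), mul_zero]
  rw [Finset.sum_eq_zero z1, Finset.sum_eq_zero z4, zero_add, add_zero] at h1
  rw [Finset.sum_eq_single (i + j), Finset.sum_eq_single i] at h1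
  · rw [c1, if_pos ⟨rfl, by omega⟩, c2, if_pos ⟨rfl, by omega⟩] at h1
    rw [show d - (i + j) = l by omega, show d - i = j + l by omega] at h1
    rw [mul_comm, h1, mul_comm]
  · intro m hm hmi
    rw [c2, if_neg (fun h => hmi h.1), mul_zero]
  · intro hm
    exact absurd (Finset.mem_range.mpr (by omega)) hm
  · intro m hm hmi
    rw [c1, if_neg (fun h => hmi h.1), mul_zero]
  · intro hm
    exact absurd (Finset.mem_range.mpr (by omega)) hm

variable (p : ℕ) [Fact p.Prime] [CharP R p]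

/-- **the leading form of a symmetric cocycle** -/
theorem IsCoc.lead {Γ : FormalGroup R} {D : MvPowerSeries (Fin 2) R} (h : IsCoc Γ D) {d : ℕ} (h2 : 2 ≤ d) (hd : Od d D) :
    ((∃ m, d = p ^ m) ∧ ∃ c : R, ∀ i, 0 < i → i < d → coeff (ex i (d - i)) D = (d.choose i / p) • c) ∨
    ((¬ ∃ m, d = p ^ m) ∧ ∃ c : R, ∀ i, 0 < i → i < d → coeff (ex i (d - i)) D = d.choose i • c) := by
  have hV : ∀ v : R, p • v = 0 := fun v => by rw [nsmul_eq_mul, CharP.cast_eq_zero, zero_mul]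
  refine LZ6.lazard hV d h2 (fun i => coeff (ex i (d - i)) D) ?_ ?_
  · intro i hi hid
    show coeff (ex (d - i) (d - (d - i))) D = coeff (ex i (d - i)) D
    rw [show d - (d - i) = i by omega, h.coeff_symm]
  · intro i j hi hj hij
    show (i + j).choose i • coeff (ex (i + j) (d - (i + j))) D = (d - i).choose j • coeff (ex i (d - i)) D
    have := h.rel (i := i) (j := j) (l := d - (i + j)) hd hi (by omega) (by omega)
    rw [nsmul_eq_mul, nsmul_eq_mul, this, show j + (d - (i + j)) = d - i by omega]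

end Pool.Agent.H88.LX
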