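import Pool.Agent.H88.LX.Lead

/-!
# The norm `∑ D ([j] x, x)` of a cocycle
-/

set_option autoImplicit false

namespace Pool.Agent.H88.LX

open MvPowerSeries
open Pool.Agent.H13.CA

variable {R : Type*} [CommRing R]

/-- `∑_{0 < j < p} D ([j] x, x)` -/
noncomputable def Nm (Γ : FormalGroup R) (p : ℕ) (D : MvPowerSeries (Fin 2) R) : PowerSeries R :=
  ∑ j ∈ Finset.Ico 1 p, MvPowerSeries.subst ![mulSer Γ j, (PowerSeries.X : PowerSeries R)] D

theorem coeff_ps (n : ℕ) (f : PowerSeries R) : PowerSeries.coeff n f = MvPowerSeries.coeff (Finsupp.single () n) f := rfl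

theorem od_ps_iff {n : ℕ} {f : PowerSeries R} : Od (σ := Unit) n f ↔ ∀ i, i < n → PowerSeries.coeff i f = 0 := by
  constructor
  · intro h i hi
    rw [coeff_ps]
    exact h _ (by rw [Finsupp.degree_single]; exact hi)
  · intro h e he
    have h1 : e = Finsupp.single () (e ()) := Finsupp.unique_ext (by
      show e () = Finsupp.single () (e ()) ()
      rw [Finsupp.single_eq_same])
    rw [h1, Finsupp.degree_single] at he
    rw [h1]
    exact h _ he

theorem cc_mv (f : PowerSeries R) : MvPowerSeries.constantCoeff (σ := Unit) f = PowerSeries.constantCoeff f := rfl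

theorem od_mulSer (Γ : FormalGroup R) (j : ℕ) : Od (σ := Unit) 2 (mulSer Γ j - (j : R) • (PowerSeries.X : PowerSeries R)) := by
  induction j with
  | zero =>
    have : mulSer Γ 0 - ((0 : ℕ) : R) • (PowerSeries.X : PowerSeries R) = 0 := by
      rw [Nat.cast_zero, zero_smul, sub_zero]
      rfl
    rw [this]
    exact od_zero _
  | succ j ih =>
    have h1 := od_Γ_subst (σ := Unit) Γ (a := mulSer Γ j) (b := (PowerSeries.X : PowerSeries R)) (cc_mulSer Γ j)
      PowerSeries.constantCoeff_X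
    have h2 : mulSer Γ (j + 1) - ((j + 1 : ℕ) : R) • (PowerSeries.X : PowerSeries R) =
        (MvPowerSeries.subst ![mulSer Γ j, (PowerSeries.X : PowerSeries R)] Γ.toPowerSeries -
          (mulSer Γ j + (PowerSeries.X : PowerSeries R))) + (mulSer Γ j - (j : R) • (PowerSeries.X : PowerSeries R)) := by
      rw [Nat.cast_add, Nat.cast_one, add_smul, one_smul]
      show MvPowerSeries.subst ![mulSer Γ j, (PowerSeries.X : PowerSeries R)] Γ.toPowerSeries - _ = _
      ring
    rw [h2]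
    exact h1.add ih

theorem coeff_subst_mulSer (Γ : FormalGroup R) {D : MvPowerSeries (Fin 2) R} {d : ℕ} (hD : Od d D) (j : ℕ) :
    PowerSeries.coeff d (MvPowerSeries.subst ![mulSer Γ j, (PowerSeries.X : PowerSeries R)] D : PowerSeries R) =
      ∑ i ∈ Finset.range (d + 1), coeff (ex i (d - i)) D * (j : R) ^ i := by
  have hX : Od (σ := Unit) 1 (PowerSeries.X : PowerSeries R) := od_one_iff.mpr PowerSeries.constantCoeff_X
  have hm : Od (σ := Unit) 1 (mulSer Γ j) := od_one_iff.mpr (cc_mulSer Γ j)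
  have hX2 : Od (σ := Unit) 2 ((PowerSeries.X : PowerSeries R) - PowerSeries.X) := by rw [sub_self]; exact od_zero _
  rw [coeff_ps, coeff_subst_lead (σ := Unit) hD hm (hX.smul (j : R)) (od_mulSer Γ j) hX hX hX2 _ (Finsupp.degree_single _ _),
    lf, map_sum]
  refine Finset.sum_congr rfl fun i hi => ?_
  rw [Finset.mem_range] at hi
  have h1 : ((j : R) • (PowerSeries.X : PowerSeries R)) ^ i * (PowerSeries.X : PowerSeries R) ^ (d - i) =
      ((j : R) ^ i) • (PowerSeries.X : PowerSeries R) ^ d := by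
    rw [smul_pow, smul_mul_assoc, ← pow_add, show i + (d - i) = d by omega]
  rw [LinearMap.map_smul, smul_eq_mul]
  congr 1
  have h2 : MvPowerSeries.coeff (Finsupp.single () d) (((j : R) • (PowerSeries.X : PowerSeries R)) ^ i *
      (PowerSeries.X : PowerSeries R) ^ (d - i)) = PowerSeries.coeff d (((j : R) ^ i) • (PowerSeries.X : PowerSeries R) ^ d) := by
    rw [h1]
    rfl
  refine h2.trans ?_
  rw [PowerSeries.coeff_smul, PowerSeries.coeff_X_pow, if_pos rfl, smul_eq_mul, mul_one]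

theorem nat_sum {p s : ℕ} (hp : p.Prime) (hs : 1 ≤ s) :
    (∑ j ∈ Finset.Ico 1 p, ∑ i ∈ Finset.Ico 1 (p ^ s), (p ^ s).choose i / p * j ^ i) + 1 = p ^ (p ^ s - 1) := by
  have hp2 := hp.two_le
  set d := p ^ s with hd
  have hd2 : 2 ≤ d := by
    calc 2 ≤ p := hp2
      _ = p ^ 1 := (pow_one p).symm
      _ ≤ p ^ s := Nat.pow_le_pow_right hp.pos hs
  have h1 : ∀ j, p * (∑ i ∈ Finset.Ico 1 d, d.choose i / p * j ^ i) + j ^ d + 1 = (j + 1) ^ d := by
    intro j
    rw [add_pow, Finset.sum_range_succ, ← Finset.sum_range_add_sum_Ico _ (show 1 ≤ d by omega), Finset.sum_range_one,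
      Finset.mul_sum]
    have h2 : ∀ i ∈ Finset.Ico 1 d, p * (d.choose i / p * j ^ i) = j ^ i * 1 ^ (d - i) * (d.choose i) := by
      intro i hi
      rw [Finset.mem_Ico] at hi
      have h3 : p ∣ d.choose i := hp.dvd_choose_pow (by omega) (by omega)
      rw [one_pow, mul_one, ← mul_assoc, Nat.mul_div_cancel' h3, mul_comm]
    rw [Finset.sum_congr rfl h2]
    simp
    ring
  have h4 : p * (∑ j ∈ Finset.Ico 1 p, ∑ i ∈ Finset.Ico 1 d, d.choose i / p * j ^ i) + (∑ j ∈ Finset.Ico 1 p, j ^ d) + (p - 1) =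
      ∑ j ∈ Finset.Ico 1 p, (j + 1) ^ d := by
    rw [← Finset.sum_congr rfl fun j _ => h1 j, Finset.sum_add_distrib, Finset.sum_add_distrib, Finset.mul_sum,
      Finset.sum_const, Nat.card_Ico, smul_eq_mul, mul_one]
  have h5 : ∑ j ∈ Finset.Ico 1 p, (j + 1) ^ d + 1 = (∑ j ∈ Finset.Ico 1 p, j ^ d) + p ^ d := by
    have h6 : ∑ j ∈ Finset.Ico 1 p, (j + 1) ^ d = ∑ j ∈ Finset.Ico 2 (p + 1), j ^ d := by
      rw [Finset.sum_Ico_add' (fun j => j ^ d) 1 p 1]
    have h7 : ∑ j ∈ Finset.Ico 1 (p + 1), j ^ d = 1 ^ d + ∑ j ∈ Finset.Ico 2 (p + 1), j ^ d := by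
      rw [Finset.sum_eq_sum_Ico_succ_bot (by omega)]
    have h8 : ∑ j ∈ Finset.Ico 1 (p + 1), j ^ d = (∑ j ∈ Finset.Ico 1 p, j ^ d) + p ^ d := by
      rw [Finset.sum_Ico_succ_top (by omega)]
    rw [h6, add_comm, ← h8, h7, one_pow]
  have h9 : p * ((∑ j ∈ Finset.Ico 1 p, ∑ i ∈ Finset.Ico 1 d, d.choose i / p * j ^ i) + 1) = p * p ^ (d - 1) := by
    rw [← pow_succ', show d - 1 + 1 = d by omega, mul_add, mul_one]
    omega
  exact Nat.eq_of_mul_eq_mul_left hp.pos h9

variable {p : ℕ} [Fact p.Prime] [CharP R p]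

/-- the coefficient of the norm in degree `p ^ s` -/
theorem coeff_Nm {Γ : FormalGroup R} {D : MvPowerSeries (Fin 2) R} (h : IsCoc Γ D) {s : ℕ} (hs : 1 ≤ s)
    (hD : Od (p ^ s) D) {c : R} (hc : ∀ i, 0 < i → i < p ^ s → coeff (ex i (p ^ s - i)) D = ((p ^ s).choose i / p) • c) :
    PowerSeries.coeff (p ^ s) (Nm Γ p D) = -c := by
  have hp : p.Prime := Fact.out
  have hd1 : 1 ≤ p ^ s := Nat.one_le_pow _ _ hp.pos
  rw [Nm, map_sum]
  have h1 : ∀ j ∈ Finset.Ico 1 p, PowerSeries.coeff (p ^ s) (MvPowerSeries.subst ![mulSer Γ j, (PowerSeries.X : PowerSeries R)] D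
      : PowerSeries R) = ((∑ i ∈ Finset.Ico 1 (p ^ s), (p ^ s).choose i / p * j ^ i : ℕ) : R) * c := by
    intro j _
    rw [coeff_subst_mulSer Γ hD, Finset.sum_range_succ, ← Finset.sum_range_add_sum_Ico _ hd1, Finset.sum_range_one,
      Nat.sub_zero, h.coeff_right, Nat.sub_self, h.coeff_left, zero_mul, zero_mul, zero_add, add_zero, Nat.cast_sum,
      Finset.sum_mul]
    refine Finset.sum_congr rfl fun i hi => ?_
    rw [Finset.mem_Ico] at hi
    rw [hc i (by omega) hi.2, nsmul_eq_mul]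
    push_cast
    ring
  rw [Finset.sum_congr rfl h1, ← Finset.sum_mul, ← Nat.cast_sum]
  have h2 := congrArg (Nat.cast (R := R)) (nat_sum hp hs)
  have h3 : p ^ s - 1 ≠ 0 := by
    have : 2 ≤ p ^ s := by
      calc 2 ≤ p := hp.two_le
        _ = p ^ 1 := (pow_one p).symm
        _ ≤ p ^ s := Nat.pow_le_pow_right hp.pos hs
    omega
  rw [Nat.cast_add, Nat.cast_one, Nat.cast_pow, CharP.cast_eq_zero R p, zero_pow h3] at h2
  rw [eq_neg_of_add_eq_zero_left h2, neg_one_mul]

theorem mulSer_one (Γ : FormalGroup R) : mulSer Γ 1 = (PowerSeries.X : PowerSeries R) := by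
  show MvPowerSeries.subst ![mulSer Γ 0, (PowerSeries.X : PowerSeries R)] Γ.toPowerSeries = _
  exact FormalGroup.zero_add Γ PowerSeries.HasSubst.X'

theorem Nm_sub (Γ : FormalGroup R) (D D' : MvPowerSeries (Fin 2) R) : Nm Γ p (D - D') = Nm Γ p D - Nm Γ p D' := by
  rw [Nm, Nm, Nm, ← Finset.sum_sub_distrib]
  refine Finset.sum_congr rfl fun j _ => ?_
  exact subst_sub (hs_pair (σ := Unit) (cc_mulSer Γ j) PowerSeries.constantCoeff_X) D D'

theorem Nm_smul (Γ : FormalGroup R) (c : R) (D : MvPowerSeries (Fin 2) R) : Nm Γ p (c • D) = c • Nm Γ p D := by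
  rw [Nm, Nm, Finset.smul_sum]
  refine Finset.sum_congr rfl fun j _ => ?_
  exact subst_smul (hs_pair (σ := Unit) (cc_mulSer Γ j) PowerSeries.constantCoeff_X) c D

/-- the norm of a coboundary is `e ∘ [p]` -/
theorem Nm_Dl (Γ : FormalGroup R) (e : PowerSeries R) :
    Nm Γ p (Dl Γ e) = PowerSeries.subst (mulSer Γ p) e := by
  have hp : p.Prime := Fact.out
  rw [Nm]
  have h1 : ∀ j ∈ Finset.Ico 1 p, (MvPowerSeries.subst ![mulSer Γ j, (PowerSeries.X : PowerSeries R)] (Dl Γ e) : PowerSeries R) =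
      (PowerSeries.subst (mulSer Γ (j + 1)) e - PowerSeries.subst (mulSer Γ j) e : PowerSeries R) - e := by
    intro j _
    have h2 := Dl_subst (σ := Unit) Γ e (a := mulSer Γ j) (b := (PowerSeries.X : PowerSeries R)) (cc_mulSer Γ j)
      PowerSeries.constantCoeff_X
    refine h2.trans ?_
    congr 1
    exact PowerSeries.X_subst e
  rw [Finset.sum_congr rfl h1, Finset.sum_sub_distrib, Finset.sum_const, Nat.card_Ico]
  have h3 : ∀ n, 1 ≤ n → ∑ j ∈ Finset.Ico 1 n, (PowerSeries.subst (mulSer Γ (j + 1)) e - PowerSeries.subst (mulSer Γ j) e :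
      PowerSeries R) = PowerSeries.subst (mulSer Γ n) e - PowerSeries.subst (mulSer Γ 1) e := fun n hn => by
    rw [Finset.sum_Ico_eq_sum_range]
    obtain ⟨m, rfl⟩ := Nat.exists_eq_add_of_le hn
    rw [Nat.add_sub_cancel_left]
    induction m with
    | zero => simp
    | succ m ih =>
      rw [Finset.sum_range_succ, ih (by omega)]
      have : 1 + (m + 1) = 1 + m + 1 := by ring
      rw [this]
      ring
  rw [h3 p hp.one_lt.le, mulSer_one, PowerSeries.X_subst]
  have h4 : (p : PowerSeries R) = 0 := by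
    have := congrArg (PowerSeries.C (R := R)) (CharP.cast_eq_zero R p)
    rwa [map_natCast, map_zero] at this
  have h5 : ((p - 1 : ℕ) : PowerSeries R) = -1 := by
    have h6 : ((p - 1 : ℕ) : PowerSeries R) + 1 = 0 := by
      have h7 : ((p - 1 : ℕ) : PowerSeries R) + 1 = ((p - 1 + 1 : ℕ) : PowerSeries R) := by
        push_cast
        ring
      rw [h7, Nat.sub_add_cancel hp.one_lt.le, h4]
    exact eq_neg_of_add_eq_zero_left h6
  rw [nsmul_eq_mul, h5]
  ring

end Pool.Agent.H88.LX
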