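import Mathlib

/-!
# Orders of power series in several variables, leading forms of substitutions
-/

set_option autoImplicit false

namespace Pool.Agent.H88.LX

open MvPowerSeries

variable {R : Type*} [CommRing R] {σ τ : Type*}

/-- all terms of `f` have degree at least `n` -/
def Od (n : ℕ) (f : MvPowerSeries σ R) : Prop := ∀ e : σ →₀ ℕ, e.degree < n → coeff e f = 0

theorem od_iff {n : ℕ} {f : MvPowerSeries σ R} : Od n f ↔ (n : ℕ∞) ≤ f.order :=
  ⟨fun h => nat_le_order h, fun h _ he => coeff_of_lt_order (lt_of_lt_of_le (by exact_mod_cast he) h)⟩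

theorem Od.mono {m n : ℕ} {f : MvPowerSeries σ R} (h : Od n f) (hmn : m ≤ n) : Od m f := fun e he => h e (he.trans_le hmn)

theorem od_zero' (f : MvPowerSeries σ R) : Od 0 f := fun _ he => absurd he (Nat.not_lt_zero _)

theorem od_zero (n : ℕ) : Od n (0 : MvPowerSeries σ R) := fun _ _ => map_zero _

theorem Od.add {n : ℕ} {f g : MvPowerSeries σ R} (hf : Od n f) (hg : Od n g) : Od n (f + g) := fun e he => by
  rw [map_add, hf e he, hg e he, add_zero]

theorem Od.neg {n : ℕ} {f : MvPowerSeries σ R} (hf : Od n f) : Od n (-f) := fun e he => by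
  rw [map_neg, hf e he, neg_zero]

theorem Od.sub {n : ℕ} {f g : MvPowerSeries σ R} (hf : Od n f) (hg : Od n g) : Od n (f - g) := fun e he => by
  rw [map_sub, hf e he, hg e he, sub_zero]

theorem Od.smul {n : ℕ} {f : MvPowerSeries σ R} (hf : Od n f) (c : R) : Od n (c • f) := fun e he => by
  rw [LinearMap.map_smul, hf e he, smul_zero]

theorem Od.sum {ι : Type*} {n : ℕ} {s : Finset ι} {f : ι → MvPowerSeries σ R} (hf : ∀ i ∈ s, Od n (f i)) :
    Od n (∑ i ∈ s, f i) := fun e he => by
  rw [map_sum]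
  exact Finset.sum_eq_zero fun i hi => hf i hi e he

theorem Od.mul {m n : ℕ} {f g : MvPowerSeries σ R} (hf : Od m f) (hg : Od n g) : Od (m + n) (f * g) := by
  rw [od_iff] at hf hg ⊢
  exact (by exact_mod_cast add_le_add hf hg : ((m + n : ℕ) : ℕ∞) ≤ f.order + g.order).trans le_order_mul

theorem Od.mul_left {m : ℕ} {f : MvPowerSeries σ R} (hf : Od m f) (g : MvPowerSeries σ R) : Od m (f * g) := by
  have := hf.mul (od_zero' g)
  rwa [add_zero] at this

theorem Od.pow {m : ℕ} {f : MvPowerSeries σ R} (hf : Od m f) (n : ℕ) : Od (n * m) (f ^ n) := by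
  induction n with
  | zero => rw [zero_mul]; exact od_zero' _
  | succ n ih =>
    rw [pow_succ, Nat.succ_mul]
    exact ih.mul hf

theorem od_one_iff {f : MvPowerSeries σ R} : Od 1 f ↔ constantCoeff f = 0 := by
  constructor
  · intro h
    have := h 0 (by simp)
    rwa [coeff_zero_eq_constantCoeff_apply] at this
  · intro h e he
    have : e = 0 := by
      rw [Nat.lt_one_iff, Finsupp.degree_eq_zero_iff] at he
      exact he
    rw [this, coeff_zero_eq_constantCoeff_apply, h]

theorem Od.subst [Finite σ] {n : ℕ} {D : MvPowerSeries σ R} (hD : Od n D) {a : σ → MvPowerSeries τ R}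
    (ha : ∀ i, constantCoeff (a i) = 0) : Od n (D.subst a) := by
  rw [od_iff] at hD ⊢
  have h1 := le_order_subst (hasSubst_of_constantCoeff_zero ha) D
  refine le_trans ?_ h1
  have h2 : (1 : ℕ∞) ≤ ⨅ i, (a i).order := le_iInf fun i => by
    have := (od_one_iff.mpr (ha i))
    rw [od_iff] at this
    exact_mod_cast this
  calc (n : ℕ∞) ≤ D.order := hD
    _ = 1 * D.order := (one_mul _).symm
    _ ≤ _ := mul_le_mul' h2 le_rfl

theorem od_X (i : σ) : Od 1 (X i : MvPowerSeries σ R) := od_one_iff.mpr (constantCoeff_X i)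

theorem pow_congr {a l : MvPowerSeries σ R} (ha : Od 1 a) (hl : Od 1 l) (h : Od 2 (a - l)) (n : ℕ) :
    Od (n + 1) (a ^ n - l ^ n) := by
  induction n with
  | zero => rw [pow_zero, pow_zero, sub_self]; exact od_zero _
  | succ n ih =>
    have h1 : a ^ (n + 1) - l ^ (n + 1) = a ^ n * (a - l) + (a ^ n - l ^ n) * l := by ring
    rw [h1]
    have h2 := (ha.pow n).mul h
    rw [mul_one] at h2
    exact h2.add (ih.mul hl)

theorem mul_pow_congr {a l b m : MvPowerSeries σ R} (ha : Od 1 a) (hl : Od 1 l) (h : Od 2 (a - l)) (hb : Od 1 b)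
    (hm : Od 1 m) (h' : Od 2 (b - m)) (i j : ℕ) : Od (i + j + 1) (a ^ i * b ^ j - l ^ i * m ^ j) := by
  have h1 : a ^ i * b ^ j - l ^ i * m ^ j = a ^ i * (b ^ j - m ^ j) + (a ^ i - l ^ i) * m ^ j := by ring
  rw [h1]
  have h2 := (ha.pow i).mul (pow_congr hb hm h' j)
  have h3 := (pow_congr ha hl h i).mul (hm.pow j)
  rw [mul_one, ← add_assoc] at h2
  rw [mul_one, add_right_comm] at h3
  exact h2.add h3

/-- the exponent of `x ^ i y ^ j` -/
noncomputable def ex (i j : ℕ) : Fin 2 →₀ ℕ := Finsupp.single 0 i + Finsupp.single 1 j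

theorem ex_zero (i j : ℕ) : ex i j 0 = i := by simp [ex]

theorem ex_one (i j : ℕ) : ex i j 1 = j := by simp [ex]

theorem ex_eq (e : Fin 2 →₀ ℕ) : e = ex (e 0) (e 1) := by
  ext i
  fin_cases i
  · exact (ex_zero _ _).symm
  · exact (ex_one _ _).symm

theorem degree_ex (i j : ℕ) : (ex i j).degree = i + j := by
  rw [Finsupp.degree_eq_sum, Fin.sum_univ_two, ex_zero, ex_one]

theorem ex_inj {i j i' j' : ℕ} : ex i j = ex i' j' ↔ i = i' ∧ j = j' := by
  constructor
  · intro h
    exact ⟨by rw [← ex_zero i j, h, ex_zero], by rw [← ex_one i j, h, ex_one]⟩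
  · rintro ⟨rfl, rfl⟩
    rfl

theorem mon_ex (i j : ℕ) : (X 0 : MvPowerSeries (Fin 2) R) ^ i * X 1 ^ j = monomial (ex i j) 1 := by
  rw [X_pow_eq, X_pow_eq, monomial_mul_monomial, one_mul, ex]

/-- the leading form of degree `d`, evaluated at `(l, m)` -/
noncomputable def lf (D : MvPowerSeries (Fin 2) R) (d : ℕ) (l m : MvPowerSeries σ R) : MvPowerSeries σ R :=
  ∑ i ∈ Finset.range (d + 1), coeff (ex i (d - i)) D • (l ^ i * m ^ (d - i))

theorem od_sub_lf {D : MvPowerSeries (Fin 2) R} {d : ℕ} (hD : Od d D) : Od (d + 1) (D - lf D d (X 0) (X 1)) := by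
  classical
  intro e he
  rw [ex_eq e, degree_ex] at he
  rw [ex_eq e, map_sub, lf, map_sum]
  have h1 : ∀ i ∈ Finset.range (d + 1), coeff (ex (e 0) (e 1)) (coeff (ex i (d - i)) D • ((X 0 : MvPowerSeries (Fin 2) R) ^ i *
      X 1 ^ (d - i))) = if i = e 0 then (if e 0 + e 1 = d then coeff (ex (e 0) (e 1)) D else 0) else 0 := by
    intro i hi
    rw [mon_ex, LinearMap.map_smul, coeff_monomial, smul_eq_mul]
    rw [Finset.mem_range] at hi
    by_cases h2 : i = e 0
    · subst h2
      rw [if_pos rfl]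
      by_cases h3 : e 0 + e 1 = d
      · have h4 : d - e 0 = e 1 := by omega
        rw [if_pos h3, h4, if_pos rfl, mul_one]
      · rw [if_neg h3, if_neg, mul_zero]
        rw [ex_inj]
        omega
    · rw [if_neg h2, if_neg, mul_zero]
      rw [ex_inj]
      omega
  rw [Finset.sum_congr rfl h1, Finset.sum_ite_eq' (Finset.range (d + 1)) (e 0)]
  by_cases h5 : e 0 + e 1 = d
  · rw [if_pos (by rw [Finset.mem_range]; omega), if_pos h5, sub_self]
  · rw [hD _ (by rw [degree_ex]; omega)]
    split_ifs <;> simp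

theorem subst_pair_lf {D : MvPowerSeries (Fin 2) R} {d : ℕ} {a b : MvPowerSeries σ R} (ha : constantCoeff a = 0)
    (hb : constantCoeff b = 0) : (lf D d (X 0) (X 1)).subst ![a, b] = lf D d a b := by
  have hs : HasSubst ![a, b] := hasSubst_of_constantCoeff_zero fun i => by
    fin_cases i
    · exact ha
    · exact hb
  rw [← coe_substAlgHom hs, lf, map_sum, lf]
  refine Finset.sum_congr rfl fun i _ => ?_
  rw [map_smul, map_mul, map_pow, map_pow, coe_substAlgHom, subst_X hs, subst_X hs]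
  rfl

/-- **leading form of a substitution** -/
theorem subst_lead {D : MvPowerSeries (Fin 2) R} {d : ℕ} (hD : Od d D) {a b l m : MvPowerSeries σ R} (ha : Od 1 a)
    (hl : Od 1 l) (h : Od 2 (a - l)) (hb : Od 1 b) (hm : Od 1 m) (h' : Od 2 (b - m)) :
    Od (d + 1) (D.subst ![a, b] - lf D d l m) := by
  have ha' := od_one_iff.mp ha
  have hb' := od_one_iff.mp hb
  have hc : ∀ i, constantCoeff ((![a, b] : Fin 2 → MvPowerSeries σ R) i) = 0 := fun i => by
    fin_cases i
    · exact ha'
    · exact hb'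
  have hs : HasSubst ![a, b] := hasSubst_of_constantCoeff_zero hc
  have h1 := (od_sub_lf hD).subst hc
  rw [← coe_substAlgHom hs, map_sub, coe_substAlgHom, subst_pair_lf ha' hb'] at h1
  have h2 : Od (d + 1) (lf D d a b - lf D d l m) := by
    rw [lf, lf, ← Finset.sum_sub_distrib]
    refine Od.sum fun i hi => ?_
    rw [← smul_sub]
    refine Od.smul ?_ _
    have := mul_pow_congr ha hl h hb hm h' i (d - i)
    rw [Finset.mem_range] at hi
    rwa [show i + (d - i) + 1 = d + 1 by omega] at this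
  have h3 : D.subst ![a, b] - lf D d l m = (D.subst ![a, b] - lf D d a b) + (lf D d a b - lf D d l m) := by ring
  rw [h3]
  exact h1.add h2

theorem coeff_subst_lead {D : MvPowerSeries (Fin 2) R} {d : ℕ} (hD : Od d D) {a b l m : MvPowerSeries σ R} (ha : Od 1 a)
    (hl : Od 1 l) (h : Od 2 (a - l)) (hb : Od 1 b) (hm : Od 1 m) (h' : Od 2 (b - m)) (e : σ →₀ ℕ) (he : e.degree = d) :
    coeff e (D.subst ![a, b]) = coeff e (lf D d l m) := by
  have := subst_lead hD ha hl h hb hm h' e (by omega)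
  rwa [map_sub, sub_eq_zero] at this

end Pool.Agent.H88.LX
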