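import Pool.Agent.H88.LX.Nm

/-!
# Symmetric cocycles of a formal group law of finite height are determined by finitely many coefficients
-/

set_option autoImplicit false

namespace Pool.Agent.H88.LX

open MvPowerSeries
open Pool.Agent.H13.CA

variable {k : Type*} [Field k] {p : ℕ} [Fact p.Prime] [CharP k p] {Γ : FormalGroup k} {n : ℕ}

theorem od_Dl (Γ : FormalGroup k) {m : ℕ} {e : PowerSeries k} (he : Od (σ := Unit) m e) : Od m (Dl Γ e) := by
  have h1 : ∀ {a : MvPowerSeries (Fin 2) k}, constantCoeff a = 0 → Od m (PowerSeries.subst a e) := fun {a} ha =>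
    he.subst (a := fun _ : Unit => a) fun _ => ha
  exact ((h1 Γ.zero_constantCoeff).sub (h1 (constantCoeff_X 0))).sub (h1 (constantCoeff_X 1))

theorem comp_low (hh : HasHeight p n Γ) {e : PowerSeries k} (he : PowerSeries.constantCoeff e = 0) {i : ℕ}
    (hi : i < p ^ n) : PowerSeries.coeff i (PowerSeries.subst (mulSer Γ p) e : PowerSeries k) = 0 := by
  obtain ⟨e1, rfl⟩ := PowerSeries.X_dvd_iff.mpr he
  obtain ⟨h, hm⟩ := PowerSeries.X_pow_dvd_iff.mpr hh.1
  have hs : PowerSeries.HasSubst (mulSer Γ p) := hs_zero (cc_mulSer Γ p)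
  rw [PowerSeries.subst_mul hs, PowerSeries.subst_X hs]
  nth_rw 1 [hm]
  rw [mul_assoc]
  exact PowerSeries.X_pow_dvd_iff.mp (dvd_mul_right _ _) i hi

theorem cXn (n : ℕ) (f : PowerSeries k) : PowerSeries.coeff n (PowerSeries.X ^ n * f) = PowerSeries.constantCoeff f := by
  have := PowerSeries.coeff_X_pow_mul f n 0
  rw [Nat.zero_add] at this
  rw [this, PowerSeries.coeff_zero_eq_constantCoeff_apply]

theorem comp_top (hh : HasHeight p n Γ) {e : PowerSeries k} (he : PowerSeries.constantCoeff e = 0) :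
    PowerSeries.coeff (p ^ n) (PowerSeries.subst (mulSer Γ p) e : PowerSeries k) =
      PowerSeries.coeff 1 e * PowerSeries.coeff (p ^ n) (mulSer Γ p) := by
  obtain ⟨e1, rfl⟩ := PowerSeries.X_dvd_iff.mpr he
  obtain ⟨h, hm⟩ := PowerSeries.X_pow_dvd_iff.mpr hh.1
  have hs : PowerSeries.HasSubst (mulSer Γ p) := hs_zero (cc_mulSer Γ p)
  rw [PowerSeries.subst_mul hs, PowerSeries.subst_X hs]
  have h1 : (mulSer Γ p) * PowerSeries.subst (mulSer Γ p) e1 = PowerSeries.X ^ (p ^ n) * (h * PowerSeries.subst (mulSer Γ p) e1) := by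
    rw [← mul_assoc, ← hm]
  rw [h1, cXn, map_mul]
  have h2 : PowerSeries.coeff (p ^ n) (mulSer Γ p) = PowerSeries.constantCoeff h := by
    conv_lhs => rw [hm]
    rw [cXn]
  have h3 : PowerSeries.constantCoeff (PowerSeries.subst (mulSer Γ p) e1 : PowerSeries k) = PowerSeries.constantCoeff e1 := by
    have h4 : e1 = PowerSeries.C (PowerSeries.constantCoeff e1) + (e1 - PowerSeries.C (PowerSeries.constantCoeff e1)) := by ring
    have h5 : PowerSeries.constantCoeff (e1 - PowerSeries.C (PowerSeries.constantCoeff e1)) = 0 := by simp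
    conv_lhs => rw [h4]
    rw [PowerSeries.subst_add hs, map_add, cc_subst (cc_mulSer Γ p) h5, add_zero, PowerSeries.subst_C]
    exact PowerSeries.constantCoeff_C _
  have h6 : PowerSeries.coeff 1 (PowerSeries.X * e1) = PowerSeries.constantCoeff e1 := by
    rw [show (1 : ℕ) = 0 + 1 from rfl, PowerSeries.coeff_succ_X_mul, PowerSeries.coeff_zero_eq_constantCoeff_apply]
  rw [h2, h3, h6, mul_comm]

theorem IsCoc.od_succ {D : MvPowerSeries (Fin 2) k} (h : IsCoc Γ D) {d : ℕ} (hD : Od d D)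
    (h0 : ∀ i, 0 < i → i < d → coeff (ex i (d - i)) D = 0) : Od (d + 1) D := by
  intro e he
  rw [ex_eq e] at he ⊢
  rw [degree_ex] at he
  by_cases h1 : e 0 + e 1 < d
  · exact hD _ (by rw [degree_ex]; exact h1)
  · by_cases h2 : e 0 = 0
    · rw [h2, h.coeff_right]
    · by_cases h3 : e 1 = 0
      · rw [h3, h.coeff_left]
      · rw [show e 1 = d - e 0 by omega]
        exact h0 _ (by omega) (by omega)

theorem Dl_X_pow (d : ℕ) : Dl Γ (PowerSeries.X ^ d) = Γ.toPowerSeries ^ d - X 0 ^ d - X 1 ^ d := by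
  rw [Dl, PowerSeries.subst_pow (hs_F Γ), PowerSeries.subst_pow (PowerSeries.HasSubst.X 0),
    PowerSeries.subst_pow (PowerSeries.HasSubst.X 1), PowerSeries.subst_X (hs_F Γ),
    PowerSeries.subst_X (PowerSeries.HasSubst.X 0), PowerSeries.subst_X (PowerSeries.HasSubst.X 1)]

theorem coeff_Dl_X_pow {d i : ℕ} (hi : 0 < i) (hid : i < d) :
    coeff (ex i (d - i)) (Dl Γ (PowerSeries.X ^ d)) = (d.choose i : k) := by
  have h1 : Od (d + 1) (Γ.toPowerSeries ^ d - (X 0 + X 1) ^ d) :=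
    pow_congr (od_one_iff.mpr Γ.zero_constantCoeff) ((od_X 0).add (od_X 1)) (od_Γ Γ) d
  have h2 := h1 (ex i (d - i)) (by rw [degree_ex]; omega)
  rw [map_sub, sub_eq_zero] at h2
  rw [Dl_X_pow, map_sub, map_sub, h2]
  have h3 : coeff (ex i (d - i)) ((X 0 : MvPowerSeries (Fin 2) k) ^ d) = 0 := by
    classical
    have : (X 0 : MvPowerSeries (Fin 2) k) ^ d = X 0 ^ d * X 1 ^ 0 := by rw [pow_zero, mul_one]
    rw [this, mon_ex, coeff_monomial, if_neg]
    rw [ex_inj]
    omega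
  have h4 : coeff (ex i (d - i)) ((X 1 : MvPowerSeries (Fin 2) k) ^ d) = 0 := by
    classical
    have : (X 1 : MvPowerSeries (Fin 2) k) ^ d = X 0 ^ 0 * X 1 ^ d := by rw [pow_zero, one_mul]
    rw [this, mon_ex, coeff_monomial, if_neg]
    rw [ex_inj]
    omega
  rw [h3, h4, sub_zero, sub_zero, add_pow, map_sum, Finset.sum_eq_single i]
  · classical
    rw [show (X 0 : MvPowerSeries (Fin 2) k) ^ i * X 1 ^ (d - i) * (d.choose i : MvPowerSeries (Fin 2) k) =
      d.choose i • (X 0 ^ i * X 1 ^ (d - i)) by rw [nsmul_eq_mul]; ring, map_nsmul, mon_ex, coeff_monomial, if_pos rfl,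
      nsmul_eq_mul, mul_one]
  · intro j hj hji
    classical
    rw [show (X 0 : MvPowerSeries (Fin 2) k) ^ j * X 1 ^ (d - j) * (d.choose j : MvPowerSeries (Fin 2) k) =
      d.choose j • (X 0 ^ j * X 1 ^ (d - j)) by rw [nsmul_eq_mul]; ring, map_nsmul, mon_ex, coeff_monomial, if_neg,
      smul_zero]
    rw [ex_inj]
    omega
  · intro hi'
    exact absurd (Finset.mem_range.mpr (by omega)) hi'

theorem od_X_pow (d : ℕ) : Od (σ := Unit) d (PowerSeries.X ^ d : PowerSeries k) := by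
  rw [od_ps_iff]
  intro i hi
  rw [PowerSeries.coeff_X_pow, if_neg (by omega)]

theorem cc_X_pow {d : ℕ} (hd : 1 ≤ d) : PowerSeries.constantCoeff (PowerSeries.X ^ d : PowerSeries k) = 0 := by
  rw [map_pow, PowerSeries.constantCoeff_X, zero_pow (by omega)]

variable (p)

/-- degrees which are no powers of `p` -/
theorem step_nonpow (hΓ : Γ.IsComm) {D : MvPowerSeries (Fin 2) k} (h : IsCoc Γ D) {d : ℕ} (h2 : 2 ≤ d) (hD : Od d D)
    (hd : ¬ ∃ m, d = p ^ m) : ∃ c : k, Od (d + 1) (D - Dl Γ (c • PowerSeries.X ^ d)) := by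
  rcases h.lead p h2 hD with ⟨h3, -⟩ | ⟨-, c, hc⟩
  · exact absurd h3 hd
  · refine ⟨c, ?_⟩
    have h4 : IsCoc Γ (Dl Γ (c • PowerSeries.X ^ d : PowerSeries k)) := isCoc_Dl hΓ (by
      rw [PowerSeries.constantCoeff_smul, cc_X_pow (by omega), smul_zero])
    refine (h.sub h4).od_succ (hD.sub (od_Dl Γ ((od_X_pow d).smul c))) fun i hi hid => ?_
    rw [map_sub, hc i hi hid, Dl_smul, LinearMap.map_smul, coeff_Dl_X_pow hi hid, nsmul_eq_mul, smul_eq_mul, mul_comm,
      sub_self]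

/-- powers of `p` where the norm vanishes -/
theorem step_low {D : MvPowerSeries (Fin 2) k} (h : IsCoc Γ D) {s : ℕ} (hs : 1 ≤ s) (hD : Od (p ^ s) D)
    (hN : PowerSeries.coeff (p ^ s) (Nm Γ p D) = 0) : Od (p ^ s + 1) D := by
  have hp : p.Prime := Fact.out
  have h2 : 2 ≤ p ^ s := by
    calc 2 ≤ p := hp.two_le
      _ = p ^ 1 := (pow_one p).symm
      _ ≤ p ^ s := Nat.pow_le_pow_right hp.pos hs
  rcases h.lead p h2 hD with ⟨-, c, hc⟩ | ⟨h3, -⟩
  · have h4 := coeff_Nm h hs hD hc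
    rw [hN, eq_comm, neg_eq_zero] at h4
    refine h.od_succ hD fun i hi hid => ?_
    rw [hc i hi hid, h4, smul_zero]
  · exact absurd ⟨s, rfl⟩ h3

/-- powers of `p`: one cocycle of exact order `d` suffices -/
theorem step_high {D h' : MvPowerSeries (Fin 2) k} (h : IsCoc Γ D) (h1 : IsCoc Γ h') {s : ℕ} (hs : 1 ≤ s)
    (hD : Od (p ^ s) D) (hD' : Od (p ^ s) h') (hne : ¬ Od (p ^ s + 1) h') : ∃ c : k, Od (p ^ s + 1) (D - c • h') := by
  have hp : p.Prime := Fact.out
  have h2 : 2 ≤ p ^ s := by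
    calc 2 ≤ p := hp.two_le
      _ = p ^ 1 := (pow_one p).symm
      _ ≤ p ^ s := Nat.pow_le_pow_right hp.pos hs
  rcases h.lead p h2 hD with ⟨-, c, hc⟩ | ⟨h3, -⟩
  · rcases h1.lead p h2 hD' with ⟨-, c', hc'⟩ | ⟨h3, -⟩
    · have h4 : c' ≠ 0 := by
        rintro rfl
        exact hne (h1.od_succ hD' fun i hi hid => by rw [hc' i hi hid, smul_zero])
      refine ⟨c / c', (h.sub (h1.smul _)).od_succ (hD.sub (hD'.smul _)) fun i hi hid => ?_⟩
      rw [map_sub, LinearMap.map_smul, hc i hi hid, hc' i hi hid, nsmul_eq_mul, nsmul_eq_mul, smul_eq_mul]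
      field_simp
      ring
    · exact absurd ⟨s, rfl⟩ h3
  · exact absurd ⟨s, rfl⟩ h3

/-- a partial logarithm -/
theorem plog (hΓ : Γ.IsComm) (hn : 1 ≤ n) (hh : HasHeight p n Γ) : ∃ g : PowerSeries k, PowerSeries.constantCoeff g = 0 ∧
    PowerSeries.coeff 1 g = 1 ∧ Od (p ^ n) (Dl Γ g) ∧ ¬ Od (p ^ n + 1) (Dl Γ g) := by
  have hp : p.Prime := Fact.out
  have hq : 2 ≤ p ^ n := by
    calc 2 ≤ p := hp.two_le
      _ = p ^ 1 := (pow_one p).symm
      _ ≤ p ^ n := Nat.pow_le_pow_right hp.pos hn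
  have key : ∀ d, 2 ≤ d → d ≤ p ^ n → ∃ g : PowerSeries k, PowerSeries.constantCoeff g = 0 ∧
      PowerSeries.coeff 1 g = 1 ∧ Od d (Dl Γ g) := by
    intro d hd
    induction d, hd using Nat.le_induction with
    | base =>
      intro _
      exact ⟨PowerSeries.X, PowerSeries.constantCoeff_X, PowerSeries.coeff_one_X,
        (isCoc_Dl hΓ PowerSeries.constantCoeff_X).od_two⟩
    | succ d hd ih =>
      intro hdq
      obtain ⟨g, hg0, hg1, hg⟩ := ih (by omega)
      have hcoc := isCoc_Dl hΓ hg0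
      by_cases hpow : ∃ m, d = p ^ m
      · obtain ⟨s, rfl⟩ := hpow
        have hs : 1 ≤ s := by
          by_contra h
          have : s = 0 := by omega
          rw [this, pow_zero] at hd
          omega
        refine ⟨g, hg0, hg1, step_low p hcoc hs hg ?_⟩
        rw [Nm_Dl]
        exact comp_low hh hg0 (by omega)
      · obtain ⟨c, hc⟩ := step_nonpow p hΓ hcoc hd hg hpow
        refine ⟨g - c • PowerSeries.X ^ d, ?_, ?_, ?_⟩
        · rw [map_sub, PowerSeries.constantCoeff_smul, cc_X_pow (by omega), smul_zero, hg0, sub_zero]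
        · rw [map_sub, PowerSeries.coeff_smul, PowerSeries.coeff_X_pow, if_neg (by omega), smul_zero, hg1, sub_zero]
        · rw [Dl_sub]
          exact hc
  obtain ⟨g, hg0, hg1, hg⟩ := key (p ^ n) hq le_rfl
  refine ⟨g, hg0, hg1, hg, fun hbad => ?_⟩
  have h1 := coeff_Nm (p := p) (isCoc_Dl hΓ hg0) hn hg (c := 0) fun i hi hid => by
    rw [smul_zero]
    exact hbad _ (by rw [degree_ex]; omega)
  rw [Nm_Dl, comp_top hh hg0, hg1, one_mul, neg_zero] at h1
  exact hh.2.ne_zero h1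

end Pool.Agent.H88.LX
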